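import Pool.Agent.H608R4.KM.Stm

set_option autoImplicit false

namespace Pool.Agent.TH524.KM

open Finset Pool.Agent.H608R4.KM

theorem t_M2 : S_M2 := by
  intro n k s r hN hr
  have hw1 : ∀ i, ∑ j, ind (k j = k i + 1) = N k (k i + 1) := fun i => rfl
  have hw2 : ∀ i, ∑ j, ind (k i = k j + 1) = N k (k i - 1) := by
    intro i
    unfold N
    refine Finset.sum_congr rfl fun j _ => ?_
    congr 1
    apply propext
    constructor
    · intro h
      rw [h]
      ring
    · intro h
      rw [h]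
      ring
  have hA : ∑ i, ∑ j, (ind (k j = k i + 1) - ind (k i = k j + 1)) * r i =
      ∑ i, (N k (k i + 1) - N k (k i - 1)) * r i := by
    refine Finset.sum_congr rfl fun i _ => ?_
    rw [← Finset.sum_mul, Finset.sum_sub_distrib, hw1, hw2]
  have hB : ∑ i, ∑ j, (ind (k j = k i + 1) - ind (k i = k j + 1)) * r j =
      - ∑ i, ∑ j, (ind (k j = k i + 1) - ind (k i = k j + 1)) * r i := by
    rw [Finset.sum_comm, ← Finset.sum_neg_distrib]
    refine Finset.sum_congr rfl fun i _ => ?_
    rw [← Finset.sum_neg_distrib]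
    refine Finset.sum_congr rfl fun j _ => ?_
    ring
  have hC : ∑ i, ∑ j, (ind (k j = k i + 1) - ind (k i = k j + 1)) * (r i - r j) =
      2 * ∑ i, (N k (k i + 1) - N k (k i - 1)) * r i := by
    have h1 : ∑ i, ∑ j, (ind (k j = k i + 1) - ind (k i = k j + 1)) * (r i - r j) =
        ∑ i, ∑ j, (ind (k j = k i + 1) - ind (k i = k j + 1)) * r i -
        ∑ i, ∑ j, (ind (k j = k i + 1) - ind (k i = k j + 1)) * r j := by
      rw [← Finset.sum_sub_distrib]
      refine Finset.sum_congr rfl fun i _ => ?_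
      rw [← Finset.sum_sub_distrib]
      refine Finset.sum_congr rfl fun j _ => ?_
      ring
    rw [h1, hB, hA]
    ring
  rw [hC]
  have hn : (0 : ℝ) ≤ n := Nat.cast_nonneg n
  have hterm : ∀ i, (N k (k i + 1) - N k (k i - 1)) * r i ≤ (2 * (n / 1000) : ℝ) * s i ^ 2 := by
    intro i
    have h1 : |N k (k i + 1) - N k (k i - 1)| ≤ 2 * (n / 1000) := by
      have h2 := abs_le.1 (hN (k i + 1))
      have h3 := abs_le.1 (hN (k i - 1))
      rw [abs_le]
      constructor <;> linarith [h2.1, h2.2, h3.1, h3.2]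
    calc (N k (k i + 1) - N k (k i - 1)) * r i ≤ |(N k (k i + 1) - N k (k i - 1)) * r i| :=
          le_abs_self _
      _ = |N k (k i + 1) - N k (k i - 1)| * |r i| := abs_mul _ _
      _ ≤ (2 * (n / 1000) : ℝ) * s i ^ 2 :=
          mul_le_mul h1 (hr i) (abs_nonneg _) (by positivity)
  have hsum : ∑ i, (N k (k i + 1) - N k (k i - 1)) * r i ≤ (2 * (n / 1000) : ℝ) * Q s := by
    unfold Q
    rw [Finset.mul_sum]
    exact Finset.sum_le_sum fun i _ => hterm i
  have hQ : 0 ≤ Q s := Finset.sum_nonneg fun i _ => sq_nonneg _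
  nlinarith [mul_nonneg hn hQ]

end Pool.Agent.TH524.KM
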